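import Pool.Agent.W322.HB.Stmts

/-!
# Labelling one branch by multiples of a pattern
-/

set_option autoImplicit false

namespace Pool.Agent.W973.HB

open Finset Pool.Agent.H115R3.DT Pool.Agent.W322.HB

/-- labels -/
def gl (n t x : ℕ) (P : ℕ → ℕ) (i : ℕ) : ℕ := if i < n - 1 then t * P i else x

/-- differences -/
def dl (n t z : ℕ) (P p : ℕ → ℕ) (i : ℕ) : ℕ :=
  if i = 0 then t * P 0 else
    if i < n - 1 then t * Int.natAbs ((P i : ℤ) - (P (p i) : ℤ)) else z

lemma natAbs_mul_sub (t a b : ℕ) :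
    Int.natAbs (((t * a : ℕ) : ℤ) - ((t * b : ℕ) : ℤ)) = t * Int.natAbs ((a : ℤ) - (b : ℤ)) := by
  have : ((t * a : ℕ) : ℤ) - ((t * b : ℕ) : ℤ) = (t : ℤ) * ((a : ℤ) - (b : ℤ)) := by
    push_cast; ring
  rw [this, Int.natAbs_mul, Int.natAbs_natCast]

theorem taskLf : TaskLf := by
  intro V _ R m C n κ p W f e P t x z hS hSt hB hdis hP ht htκ hx1 hxm hxL htU htx hz hzD htz
  classical
  have h2 := hS.two
  have hex : ∀ y, ∃ i, y ∈ vs n e → i < n ∧ e i = y := by
    intro y
    by_cases hy : y ∈ vs n e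
    · obtain ⟨i, hi, rfl⟩ := mem_image.1 hy
      exact ⟨i, fun _ => ⟨mem_range.1 hi, rfl⟩⟩
    · exact ⟨0, fun h => absurd h hy⟩
  choose idx hidx using hex
  have hev : ∀ i, i < n → e i ∈ vs n e := fun i hi => mem_image_of_mem _ (mem_range.2 hi)
  have hie : ∀ i, i < n → idx (e i) = i := by
    intro i hi
    have h := hidx (e i) (hev i hi)
    exact hB.inj _ h.1 _ hi h.2
  set f' : V → ℕ := fun y => if y ∈ vs n e then gl n t x P (idx y) else f y with hf'
  have hfe : ∀ i, i < n → f' (e i) = gl n t x P i := by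
    intro i hi
    simp only [hf', if_pos (hev i hi), hie i hi]
  have hfW : ∀ y ∈ W, f' y = f y := by
    intro y hy
    have : y ∉ vs n e := fun h => (disjoint_left.1 hdis h) hy
    simp only [hf', if_neg this]
  have hfv : f' R.v = 0 := by rw [hfW _ hSt.root, hSt.f0]
  have hPpos : ∀ i, i < n - 1 → 1 ≤ P i := fun i hi => hP.pos i (mem_range.2 hi)
  have hPle : ∀ i, i < n - 1 → P i ≤ κ := fun i hi => hP.le i (mem_range.2 hi)
  have hPinj : ∀ i, i < n - 1 → ∀ j, j < n - 1 → P i = P j → i = j :=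
    fun i hi j hj h => hP.inj i (mem_range.2 hi) j (mem_range.2 hj) h
  have hq : ∀ i, 0 < i → i < n - 1 → ∃ j, 0 < j ∧ j < n - 1 ∧
      Int.natAbs ((P i : ℤ) - (P (p i) : ℤ)) = P j := by
    intro i hi0 hi
    have h : Int.natAbs ((P i : ℤ) - (P (p i) : ℤ)) ∈ ((range (n - 1)).erase 0).image P := by
      rw [← hP.im]
      exact mem_image_of_mem _ (mem_erase.2 ⟨hi0.ne', mem_range.2 hi⟩)
    obtain ⟨j, hj, hjq⟩ := mem_image.1 h
    rw [mem_erase, mem_range] at hj
    exact ⟨j, Nat.pos_of_ne_zero hj.1, hj.2, hjq.symm⟩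
  have hq' : ∀ j, 0 < j → j < n - 1 → ∃ i, 0 < i ∧ i < n - 1 ∧
      Int.natAbs ((P i : ℤ) - (P (p i) : ℤ)) = P j := by
    intro j hj0 hj
    have h : P j ∈ ((range (n - 1)).erase 0).image
        (fun x => Int.natAbs ((P x : ℤ) - (P (p x) : ℤ))) := by
      rw [hP.im]
      exact mem_image_of_mem _ (mem_erase.2 ⟨hj0.ne', mem_range.2 hj⟩)
    obtain ⟨i, hi, hiq⟩ := mem_image.1 h
    rw [mem_erase, mem_range] at hi
    exact ⟨i, Nat.pos_of_ne_zero hi.1, hi.2, hiq⟩
  have hde : ∀ i, i < n → R.dif f' (e i) = dl n t z P p i := by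
    intro i hi
    unfold RT.dif dl
    rcases Nat.eq_zero_or_pos i with rfl | hi0
    · rw [hB.top, hfv, hfe 0 hi, if_pos rfl, gl, if_pos (by omega), Nat.cast_zero,
        sub_zero, Int.natAbs_natCast]
    · have hpi := hS.lt i hi0 hi
      rw [hB.par i hi0 hi, hfe i hi, hfe (p i) (by omega), if_neg hi0.ne']
      unfold gl
      rw [if_pos (by omega : p i < n - 1)]
      by_cases hin : i < n - 1
      · rw [if_pos hin, if_pos hin, natAbs_mul_sub]
      · rw [if_neg hin, if_neg hin, hz]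
        have : i = n - 1 := by omega
        rw [this]
  -- the value of `dl`
  have hdl : ∀ i, i < n → dl n t z P p i = z ∧ i = n - 1 ∨
      ∃ j, j < n - 1 ∧ dl n t z P p i = t * P j ∧ (i = 0 ↔ j = 0) ∧ i < n - 1 := by
    intro i hi
    unfold dl
    rcases Nat.eq_zero_or_pos i with rfl | hi0
    · exact Or.inr ⟨0, by omega, by rw [if_pos rfl], by simp, by omega⟩
    · rw [if_neg hi0.ne']
      by_cases hin : i < n - 1
      · rw [if_pos hin]
        obtain ⟨j, hj0, hj, hjq⟩ := hq i hi0 hin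
        exact Or.inr ⟨j, hj, by rw [hjq], by constructor <;> intro h <;> omega, hin⟩
      · rw [if_neg hin]
        exact Or.inl ⟨rfl, by omega⟩
  have hcancel : ∀ a b : ℕ, t * a = t * b → a = b := fun a b h =>
    Nat.eq_of_mul_eq_mul_left ht h
  have himg : (vs n e).image f' = insert x ((range (n - 1)).image (fun i => t * P i)) := by
    ext y
    constructor
    · intro hy
      obtain ⟨w, hw, rfl⟩ := mem_image.1 hy
      obtain ⟨i, hi, rfl⟩ := mem_image.1 hw
      rw [mem_range] at hi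
      rw [hfe i hi, gl]
      by_cases hin : i < n - 1
      · rw [if_pos hin]
        exact mem_insert_of_mem (mem_image_of_mem (fun i => t * P i) (mem_range.2 hin))
      · rw [if_neg hin]
        exact mem_insert_self _ _
    · intro hy
      rcases mem_insert.1 hy with rfl | hy
      · refine mem_image.2 ⟨e (n - 1), hev _ (by omega), ?_⟩
        rw [hfe _ (by omega), gl, if_neg (lt_irrefl _)]
      · obtain ⟨i, hi, rfl⟩ := mem_image.1 hy
        rw [mem_range] at hi
        refine mem_image.2 ⟨e i, hev _ (by omega), ?_⟩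
        rw [hfe _ (by omega), gl, if_pos hi]
  have himd : (vs n e).image (R.dif f') =
      insert z ((range (n - 1)).image (fun i => t * P i)) := by
    ext y
    constructor
    · intro hy
      obtain ⟨w, hw, rfl⟩ := mem_image.1 hy
      obtain ⟨i, hi, rfl⟩ := mem_image.1 hw
      rw [mem_range] at hi
      rw [hde i hi]
      rcases hdl i hi with ⟨h, -⟩ | ⟨j, hj, h, -, -⟩
      · rw [h]; exact mem_insert_self _ _
      · rw [h]
        exact mem_insert_of_mem (mem_image_of_mem (fun i => t * P i) (mem_range.2 hj))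
    · intro hy
      rcases mem_insert.1 hy with rfl | hy
      · refine mem_image.2 ⟨e (n - 1), hev _ (by omega), ?_⟩
        rw [hde _ (by omega), dl, if_neg (by omega), if_neg (lt_irrefl _)]
      · obtain ⟨j, hj, rfl⟩ := mem_image.1 hy
        rw [mem_range] at hj
        rcases Nat.eq_zero_or_pos j with rfl | hj0
        · refine mem_image.2 ⟨e 0, hev _ (by omega), ?_⟩
          rw [hde _ (by omega), dl, if_pos rfl]
        · obtain ⟨i, hi0, hi, hiq⟩ := hq' j hj0 hj
          refine mem_image.2 ⟨e i, hev _ (by omega), ?_⟩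
          rw [hde _ (by omega), dl, if_neg hi0.ne', if_pos hi, hiq]
  have hUL : ∀ a, a ∉ Us R W f → a ∉ Ls R W f := fun a h h' => h (mem_union_left _ h')
  have hUD : ∀ a, a ∉ Us R W f → a ∉ Ds R W f := fun a h h' => h (mem_union_right _ h')
  have hext := taskExt V R m W f (vs n e) f' hSt hdis hfW ?_ ?_ ?_ ?_ ?_
  · rw [himg, himd] at hext
    exact ⟨f', hfW, hext.1, hext.2.1, hext.2.2⟩
  · intro y hy
    obtain ⟨i, hi, rfl⟩ := mem_image.1 hy
    rw [mem_range] at hi
    rcases Nat.eq_zero_or_pos i with rfl | hi0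
    · rw [hB.top]; exact mem_union_left _ hSt.root
    · rw [hB.par i hi0 hi]
      have := hS.lt i hi0 hi
      exact mem_union_right _ (hev _ (by omega))
  · intro y hy y' hy' h
    obtain ⟨i, hi, rfl⟩ := mem_image.1 hy
    obtain ⟨j, hj, rfl⟩ := mem_image.1 hy'
    rw [mem_range] at hi hj
    rw [hfe i hi, hfe j hj, gl, gl] at h
    by_cases hin : i < n - 1
    · rw [if_pos hin] at h
      by_cases hjn : j < n - 1
      · rw [if_pos hjn] at h
        rw [hPinj i hin j hjn (hcancel _ _ h)]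
      · rw [if_neg hjn] at h
        exact absurd h (htx i hin)
    · rw [if_neg hin] at h
      by_cases hjn : j < n - 1
      · rw [if_pos hjn] at h
        exact absurd h.symm (htx j hjn)
      · have : i = j := by omega
        rw [this]
  · intro y hy y' hy' h
    obtain ⟨i, hi, rfl⟩ := mem_image.1 hy
    obtain ⟨j, hj, rfl⟩ := mem_image.1 hy'
    rw [mem_range] at hi hj
    rw [hde i hi, hde j hj] at h
    rcases hdl i hi with ⟨h1, h1'⟩ | ⟨a, ha, h1, h1', h1''⟩
    · rcases hdl j hj with ⟨h3, h3'⟩ | ⟨b, hb, h3, h3', h3''⟩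
      · rw [h1', h3']
      · rw [h1, h3] at h
        exact absurd h.symm (htz b hb)
    · rcases hdl j hj with ⟨h3, h3'⟩ | ⟨b, hb, h3, h3', h3''⟩
      · rw [h1, h3] at h
        exact absurd h (htz a ha)
      · have hab : a = b := by
          rw [h1, h3] at h
          exact hPinj a ha b hb (hcancel _ _ h)
        by_cases hi0 : i = 0
        · have hj0 : j = 0 := h3'.2 (hab ▸ h1'.1 hi0)
          rw [hi0, hj0]
        · have hj0 : j ≠ 0 := fun hj0 => hi0 (h1'.2 (hab ▸ h3'.1 hj0))
          unfold dl at h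
          rw [if_neg hi0, if_pos h1'', if_neg hj0, if_pos h3''] at h
          have := hP.dinj i (mem_range.2 h1'') j (mem_range.2 h3'') hi0 hj0 (hcancel _ _ h)
          rw [this]
  · intro y hy
    obtain ⟨i, hi, rfl⟩ := mem_image.1 hy
    rw [mem_range] at hi
    rw [hfe i hi, gl]
    by_cases hin : i < n - 1
    · rw [if_pos hin]
      refine ⟨(Nat.mul_le_mul_left t (hPle i hin)).trans htκ, ?_, hUL _ (htU i hin)⟩
      exact Nat.mul_pos ht (hPpos i hin)
    · rw [if_neg hin]
      exact ⟨hxm, hx1, hxL⟩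
  · intro y hy
    obtain ⟨i, hi, rfl⟩ := mem_image.1 hy
    rw [mem_range] at hi
    rw [hde i hi]
    rcases hdl i hi with ⟨h1, -⟩ | ⟨a, ha, h1, -, -⟩
    · rw [h1]; exact hzD
    · rw [h1]; exact hUD _ (htU a ha)

end Pool.Agent.W973.HB
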